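import Pool.Agent.X84.Kk.Vol

set_option autoImplicit false
open MeasureTheory Set Finset Filter Topology
open scoped ENNReal

namespace Pool.Agent.X84.Kk
open Pool.Agent.W46.KK

/-- The lower `θ`-intermediate dimension (Falconer, Fraser, Kempton): the infimum of the `s ≥ 0`
such that for all `ε, δ₀ > 0` there are `0 < δ ≤ δ₀` and a finite cover of `K` by sets `U i` with
`δ^(1/θ) ≤ |U i| ≤ δ` and `∑ |U i|^s ≤ ε`, `|U|` being the diameter of `U`. -/
noncomputable def lowerIntermediate {n : ℕ} (θ : ℝ) (K : Set (EuclideanSpace ℝ (Fin n))) : EReal :=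
  sInf {x : EReal | ∃ s : ℝ, x = s ∧ 0 ≤ s ∧ ∀ ε : ℝ, 0 < ε → ∀ δ₀ : ℝ, 0 < δ₀ →
    ∃ δ : ℝ, 0 < δ ∧ δ ≤ δ₀ ∧ ∃ (N : ℕ) (U : Fin N → Set (EuclideanSpace ℝ (Fin n))),
      K ⊆ ⋃ i, U i ∧ (∀ i, δ ^ (1 / θ) ≤ Metric.diam (U i) ∧ Metric.diam (U i) ≤ δ) ∧
      ∑ i, Metric.diam (U i) ^ s ≤ ε}

theorem inter_ge {c : ℝ} (h : SD c) (hc : 1 ≤ c) (d : ℕ)
    (K : Set (EuclideanSpace ℝ (Fin (d + 1)))) (hK : HasSegments K) (θ : ℝ) (hθ0 : 0 < θ)
    (hθ1 : θ ≤ 1) : ((1 + (d : ℝ) / c : ℝ) : EReal) ≤ lowerIntermediate θ K := by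
  classical
  have hc0 : 0 < c := by linarith
  apply le_sInf
  rintro x ⟨s, rfl, hs0, hs⟩
  rw [EReal.coe_le_coe_iff]
  by_contra hcon
  push Not at hcon
  set D : ℝ := 1 + (d : ℝ) / c with hD
  have hD1 : 1 ≤ D := by rw [hD]; have : 0 ≤ (d : ℝ) / c := by positivity
                         linarith
  set η : ℝ := (D - s) / (s + 1) with hη
  have hη0 : 0 < η := by rw [hη]; apply div_pos <;> linarith
  have hηs : (1 + η) * s ≤ D := by
    have h1 : η * (s + 1) = D - s := by rw [hη]; field_simp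
    nlinarith
  obtain ⟨M, hM⟩ := exists_nat_ge ((1 / θ) / η)
  rw [div_le_iff₀ hη0] at hM
  obtain ⟨κ, hκ, hvol⟩ := volJ h hc d (M + 1)
  set vb : ℝ := (volume (Metric.ball (0 : EuclideanSpace ℝ (Fin (d + 1))) 1)).toReal with hvb
  have hvbnn : 0 ≤ vb := ENNReal.toReal_nonneg
  have hvbeq : volume (Metric.ball (0 : EuclideanSpace ℝ (Fin (d + 1))) 1) = ENNReal.ofReal vb :=
    (ENNReal.ofReal_toReal measure_ball_lt_top.ne).symm
  have hA : 0 < 2 ^ (d + 1) * vb + 1 := by positivity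
  obtain ⟨δ, hδ0, hδ1, N, U, hcov, hdiam, hsum⟩ := hs (κ / (2 * (2 ^ (d + 1) * vb + 1)))
    (by positivity) 1 one_pos
  -- classes
  set jj : Fin N → ℕ := fun i =>
    Nat.findGreatest (fun j => Metric.diam (U i) ≤ δ ^ (1 + (j : ℝ) * η)) M with hjj
  have hjjM : ∀ i, jj i ≤ M := fun i => Nat.findGreatest_le M
  have hdle : ∀ i, Metric.diam (U i) ≤ δ ^ (1 + (jj i : ℝ) * η) := by
    intro i
    have h0 : Metric.diam (U i) ≤ δ ^ (1 + ((0 : ℕ) : ℝ) * η) := by
      simpa using (hdiam i).2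
    exact Nat.findGreatest_spec (P := fun j => Metric.diam (U i) ≤ δ ^ (1 + (j : ℝ) * η))
      (Nat.zero_le M) h0
  have hdge : ∀ i, δ ^ (1 + ((jj i : ℝ) + 1) * η) ≤ Metric.diam (U i) := by
    intro i
    rcases Nat.lt_or_ge (jj i) M with hlt | hge
    · have h1 : ¬ (Metric.diam (U i) ≤ δ ^ (1 + ((jj i + 1 : ℕ) : ℝ) * η)) :=
        Nat.findGreatest_is_greatest (P := fun j => Metric.diam (U i) ≤ δ ^ (1 + (j : ℝ) * η))
          (Nat.lt_succ_self _) hlt
      push Not at h1
      push_cast at h1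
      exact h1.le
    · have h1 : jj i = M := le_antisymm (hjjM i) hge
      refine le_trans ?_ (hdiam i).1
      apply Real.rpow_le_rpow_of_exponent_ge hδ0 hδ1
      rw [h1]
      nlinarith
  have hkey : ∀ i, (δ ^ (1 + (jj i : ℝ) * η)) ^ D ≤ Metric.diam (U i) ^ s := by
    intro i
    calc (δ ^ (1 + (jj i : ℝ) * η)) ^ D = δ ^ ((1 + (jj i : ℝ) * η) * D) := by
          rw [← Real.rpow_mul hδ0.le]
      _ ≤ δ ^ ((1 + ((jj i : ℝ) + 1) * η) * s) := by
          apply Real.rpow_le_rpow_of_exponent_ge hδ0 hδ1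
          have h1 : (0 : ℝ) ≤ jj i := Nat.cast_nonneg _
          have h2 : (1 + ((jj i : ℝ) + 1) * η) ≤ (1 + (jj i : ℝ) * η) * (1 + η) := by
            have : 0 ≤ (jj i : ℝ) * η * η := by positivity
            nlinarith
          have h3 : 0 ≤ 1 + (jj i : ℝ) * η := by positivity
          calc (1 + ((jj i : ℝ) + 1) * η) * s ≤ (1 + (jj i : ℝ) * η) * (1 + η) * s := by gcongr
            _ = (1 + (jj i : ℝ) * η) * ((1 + η) * s) := by ring
            _ ≤ _ := by gcongr
      _ = (δ ^ (1 + ((jj i : ℝ) + 1) * η)) ^ s := by rw [← Real.rpow_mul hδ0.le]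
      _ ≤ Metric.diam (U i) ^ s := Real.rpow_le_rpow (by positivity) (hdge i) hs0
  -- the decomposition
  set F : Fin (M + 1) → Set (EuclideanSpace ℝ (Fin (d + 1))) := fun j =>
    ⋃ i ∈ (univ.filter fun i : Fin N => jj i = (j : ℕ)), U i with hF
  set r : Fin (M + 1) → ℝ := fun j => δ ^ (1 + ((j : ℕ) : ℝ) * η) with hr
  have hrpos : ∀ j, 0 < r j := fun j => by simp only [hr]; positivity
  have hKF : K ⊆ ⋃ j, F j := by
    intro y hy
    obtain ⟨i, hi⟩ := Set.mem_iUnion.1 (hcov hy)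
    refine Set.mem_iUnion.2 ⟨⟨jj i, Nat.lt_succ_of_le (hjjM i)⟩, ?_⟩
    rw [hF]
    exact Set.mem_iUnion₂.2 ⟨i, Finset.mem_filter.2 ⟨Finset.mem_univ _, rfl⟩, hi⟩
  have hmain := hvol K hK F r hKF hrpos
  have hUi : ∀ i, 0 < Metric.diam (U i) := fun i => lt_of_lt_of_le (by positivity) (hdiam i).1
  have hball : ∀ i : Fin N, volume (Metric.thickening (δ ^ (1 + (jj i : ℝ) * η)) (U i)) ≤
      ENNReal.ofReal ((2 * δ ^ (1 + (jj i : ℝ) * η)) ^ (d + 1) * vb) := by
    intro i
    have hbdd : Bornology.IsBounded (U i) := by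
      by_contra hb
      have := Metric.diam_eq_zero_of_unbounded hb
      linarith [hUi i]
    have hne : (U i).Nonempty := by
      rw [Set.nonempty_iff_ne_empty]
      intro he
      have := hUi i
      rw [he, Metric.diam_empty] at this
      exact lt_irrefl _ this
    obtain ⟨z, hz⟩ := hne
    set ρ : ℝ := δ ^ (1 + (jj i : ℝ) * η) with hρ
    have hρ0 : 0 < ρ := by positivity
    have hsub : Metric.thickening ρ (U i) ⊆ Metric.ball z (2 * ρ) := by
      intro y hy
      obtain ⟨u, hu, hyu⟩ := Metric.mem_thickening_iff.1 hy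
      have h1 := Metric.dist_le_diam_of_mem hbdd hu hz
      have h2 := hdle i
      rw [Metric.mem_ball]
      have h3 := dist_triangle y u z
      linarith
    refine (measure_mono hsub).trans ?_
    rw [Measure.addHaar_ball _ _ (by positivity), finrank_euclideanSpace_fin, hvbeq,
      ENNReal.ofReal_mul (by positivity)]
  have hFvol : ∀ j, volume (Metric.thickening (r j) (F j)) ≤
      ∑ i ∈ univ.filter (fun i : Fin N => jj i = (j : ℕ)),
        ENNReal.ofReal ((2 * r j) ^ (d + 1) * vb) := by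
    intro j
    have hsub : Metric.thickening (r j) (F j) ⊆
        ⋃ i ∈ univ.filter (fun i : Fin N => jj i = (j : ℕ)), Metric.thickening (r j) (U i) := by
      intro y hy
      obtain ⟨u, hu, hyu⟩ := Metric.mem_thickening_iff.1 hy
      obtain ⟨i, hi, hui⟩ := Set.mem_iUnion₂.1 hu
      exact Set.mem_iUnion₂.2 ⟨i, hi, Metric.mem_thickening_iff.2 ⟨u, hui, hyu⟩⟩
    refine (measure_mono hsub).trans ((measure_biUnion_finset_le _ _).trans ?_)
    refine Finset.sum_le_sum fun i hi => ?_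
    have hij := (Finset.mem_filter.1 hi).2
    have := hball i
    simp only [hr]
    rw [← hij]
    exact this
  have hfinal : ENNReal.ofReal κ ≤ ENNReal.ofReal (2 ^ (d + 1) * vb * ∑ i, Metric.diam (U i) ^ s) := by
    calc ENNReal.ofReal κ ≤ _ := hmain
      _ ≤ ∑ j : Fin (M + 1), ENNReal.ofReal (r j ^ ((d : ℝ) / c - d)) *
            ∑ i ∈ univ.filter (fun i : Fin N => jj i = (j : ℕ)),
              ENNReal.ofReal ((2 * r j) ^ (d + 1) * vb) := by
          refine Finset.sum_le_sum fun j _ => ?_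
          gcongr
          exact hFvol j
      _ = ∑ j : Fin (M + 1), ∑ i ∈ univ.filter (fun i : Fin N => jj i = (j : ℕ)),
            ENNReal.ofReal (2 ^ (d + 1) * vb * r j ^ D) := by
          refine Finset.sum_congr rfl fun j _ => ?_
          rw [Finset.mul_sum]
          refine Finset.sum_congr rfl fun i _ => ?_
          rw [← ENNReal.ofReal_mul (by have := hrpos j; positivity)]
          congr 1
          have h1 := hrpos j
          have h2 : r j ^ D = r j ^ ((d : ℝ) / c - d) * r j ^ (d + 1) := by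
            rw [← Real.rpow_natCast, ← Real.rpow_add h1]
            congr 1
            rw [hD]; push_cast; ring
          rw [h2, mul_pow]; ring
      _ ≤ ∑ j : Fin (M + 1), ∑ i ∈ univ.filter (fun i : Fin N => jj i = (j : ℕ)),
            ENNReal.ofReal (2 ^ (d + 1) * vb * Metric.diam (U i) ^ s) := by
          refine Finset.sum_le_sum fun j _ => Finset.sum_le_sum fun i hi => ?_
          apply ENNReal.ofReal_le_ofReal
          have hij := (Finset.mem_filter.1 hi).2
          have := hkey i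
          rw [hij] at this
          gcongr
      _ = ∑ i, ENNReal.ofReal (2 ^ (d + 1) * vb * Metric.diam (U i) ^ s) := by
          have h1 : ∀ i ∈ (univ : Finset (Fin N)),
              (⟨jj i, Nat.lt_succ_of_le (hjjM i)⟩ : Fin (M + 1)) ∈ (univ : Finset (Fin (M + 1))) :=
            fun _ _ => Finset.mem_univ _
          rw [← Finset.sum_fiberwise_of_maps_to h1]
          refine Finset.sum_congr rfl fun j _ => ?_
          refine Finset.sum_congr ?_ fun _ _ => rfl
          ext i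
          simp only [Finset.mem_filter, Finset.mem_univ, true_and]
          exact ⟨fun h => Fin.ext h, fun h => congrArg Fin.val h⟩
      _ = _ := by
          rw [← ENNReal.ofReal_sum_of_nonneg fun i _ => by positivity, ← Finset.mul_sum]
  rw [ENNReal.ofReal_le_ofReal_iff (by positivity)] at hfinal
  have h1 : 2 ^ (d + 1) * vb * ∑ i, Metric.diam (U i) ^ s ≤
      (2 ^ (d + 1) * vb + 1) * (κ / (2 * (2 ^ (d + 1) * vb + 1))) := by
    apply mul_le_mul (by linarith) hsum (Finset.sum_nonneg fun i _ => by positivity) hA.le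
  have h2 : (2 ^ (d + 1) * vb + 1) * (κ / (2 * (2 ^ (d + 1) * vb + 1))) = κ / 2 := by
    field_simp
  rw [h2] at h1
  linarith

theorem decomposition {c : ℝ} (h : SD c) (hc : 1 ≤ c) (d : ℕ)
    (K : Set (EuclideanSpace ℝ (Fin (d + 1)))) (hK : HasSegments K) (J : ℕ)
    (F : Fin J → Set (EuclideanSpace ℝ (Fin (d + 1)))) (hb : ∀ j, Bornology.IsBounded (F j))
    (hne : ∀ j, (F j).Nonempty) (hKF : K ⊆ ⋃ j, F j) :
    ∃ j, 1 + (d : ℝ) / c ≤ lowerMinkowski (F j) := by
  classical
  by_contra hcon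
  push Not at hcon
  obtain ⟨κ, hκ, hvol⟩ := volJ h hc d J
  set γ : ℝ := (d : ℝ) - d / c with hγ
  have hfin : ∀ j (δ : ℝ), volume (Metric.thickening δ (F j)) ≠ ⊤ := fun j δ =>
    ((hb j).thickening (δ := δ)).measure_lt_top.ne
  have hpos : ∀ j (δ : ℝ), 0 < δ → 0 < (volume (Metric.thickening δ (F j))).toReal := by
    intro j δ hδ
    apply ENNReal.toReal_pos _ (hfin j δ)
    apply (Metric.isOpen_thickening.measure_pos volume ?_).ne'
    obtain ⟨z, hz⟩ := hne j
    exact ⟨z, Metric.mem_thickening_iff.2 ⟨z, hz, by rw [dist_self]; exact hδ⟩⟩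
  have hlog : Tendsto Real.log (𝓝[>] 0) atBot := Real.tendsto_log_nhdsGT_zero
  have hsmall : ∀ᶠ δ : ℝ in 𝓝[>] (0 : ℝ), 0 < δ ∧ δ < 1 := by
    have : Set.Ioo (0 : ℝ) 1 ∈ 𝓝[>] (0 : ℝ) := Ioo_mem_nhdsGT one_pos
    exact this
  have hex : ∀ j, ∃ δ : ℝ, 0 < δ ∧ ENNReal.ofReal (δ ^ ((d : ℝ) / c - d)) *
      volume (Metric.thickening δ (F j)) ≤ ENNReal.ofReal (κ / (2 * (J + 1))) := by
    intro j
    have h1 := hcon j
    unfold lowerMinkowski at h1
    set f : ℝ → ℝ := fun δ => Real.log (volume (Metric.thickening δ (F j))).toReal / Real.log δ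
      with hf
    have h2 : γ < limsup f (𝓝[>] 0) := by
      rw [hγ]; push_cast at h1; linarith
    obtain ⟨γ', hγ1, hγ2⟩ := exists_between h2
    have hfreq : ∃ᶠ δ in 𝓝[>] (0 : ℝ), γ' < f δ := by
      apply frequently_lt_of_lt_limsup _ hγ2
      set M : ℝ := (volume (Metric.thickening 1 (F j))).toReal with hM
      refine IsCoboundedUnder.of_frequently_ge (a := -1) (Eventually.frequently ?_)
      have h1 : ∀ᶠ δ : ℝ in 𝓝[>] (0 : ℝ), Real.log δ < -(|Real.log M| + 1) :=
        hlog.eventually (eventually_lt_atBot _)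
      filter_upwards [h1, hsmall] with δ h1 h2
      have hneg : Real.log δ < 0 := by have := abs_nonneg (Real.log M); linarith
      rw [hf]
      simp only
      rw [le_div_iff_of_neg hneg]
      have h3 : (volume (Metric.thickening δ (F j))).toReal ≤ M := by
        rw [hM]
        exact ENNReal.toReal_mono (hfin j 1) (measure_mono (Metric.thickening_mono h2.2.le _))
      have h5 := Real.log_le_log (hpos j δ h2.1) h3
      have := le_abs_self (Real.log M)
      linarith
    have hgap : 0 < γ' - γ := by linarith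
    have hpow : Tendsto (fun δ : ℝ => δ ^ (γ' - γ)) (𝓝[>] 0) (𝓝 0) := by
      have h3 : Tendsto (fun δ : ℝ => δ ^ (γ' - γ)) (𝓝 0) (𝓝 (0 ^ (γ' - γ))) :=
        (Real.continuousAt_rpow_const 0 (γ' - γ) (Or.inr hgap.le)).tendsto
      rw [Real.zero_rpow hgap.ne'] at h3
      exact h3.mono_left nhdsWithin_le_nhds
    have hev : ∀ᶠ δ : ℝ in 𝓝[>] (0 : ℝ), δ ^ (γ' - γ) < κ / (2 * (J + 1)) :=
      hpow.eventually (gt_mem_nhds (by positivity))
    obtain ⟨δ, hfδ, hδ1, hδ2⟩ := (hfreq.and_eventually (hev.and hsmall)).exists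
    refine ⟨δ, hδ2.1, ?_⟩
    have hδ0 := hδ2.1
    have hneg : Real.log δ < 0 := Real.log_neg hδ0 hδ2.2
    rw [hf] at hfδ
    simp only at hfδ
    rw [lt_div_iff_of_neg hneg] at hfδ
    have h4 : (volume (Metric.thickening δ (F j))).toReal < δ ^ γ' := by
      rw [← Real.log_rpow hδ0] at hfδ
      exact (Real.log_lt_log_iff (hpos j δ hδ0) (by positivity)).1 hfδ
    rw [← ENNReal.ofReal_toReal (hfin j δ), ← ENNReal.ofReal_mul (by positivity)]
    apply ENNReal.ofReal_le_ofReal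
    have e : δ ^ ((d : ℝ) / c - d) * δ ^ γ' = δ ^ (γ' - γ) := by
      rw [← Real.rpow_add hδ0]; congr 1; rw [hγ]; ring
    calc δ ^ ((d : ℝ) / c - d) * (volume (Metric.thickening δ (F j))).toReal
        ≤ δ ^ ((d : ℝ) / c - d) * δ ^ γ' := by gcongr
      _ = δ ^ (γ' - γ) := e
      _ ≤ _ := hδ1.le
  choose δ hδ0 hδ using hex
  have h1 := hvol K hK F δ hKF hδ0
  have h2 : ∑ j : Fin J, ENNReal.ofReal (δ j ^ ((d : ℝ) / c - d)) *
      volume (Metric.thickening (δ j) (F j)) ≤ ENNReal.ofReal (κ / 2) := by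
    calc _ ≤ ∑ _j : Fin J, ENNReal.ofReal (κ / (2 * (J + 1))) := Finset.sum_le_sum fun j _ => hδ j
      _ = ENNReal.ofReal (J * (κ / (2 * (J + 1)))) := by
          rw [Finset.sum_const, Finset.card_univ, Fintype.card_fin, nsmul_eq_mul,
            ENNReal.ofReal_mul (Nat.cast_nonneg _), ENNReal.ofReal_natCast]
      _ ≤ _ := by
          apply ENNReal.ofReal_le_ofReal
          rw [← mul_div_assoc, div_le_div_iff₀ (by positivity) (by norm_num)]
          nlinarith
  have h3 := h1.trans h2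
  rw [ENNReal.ofReal_le_ofReal_iff (by positivity)] at h3
  linarith

end Pool.Agent.X84.Kk
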