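import Mathlib

set_option autoImplicit false
open MeasureTheory Set Finset
open scoped ENNReal

namespace Pool.Agent.X84.Kk

/-- A bounded set of `ℝ^d` contains a finite `s`-separated set whose cardinality is at least the
outer measure of the set divided by `(2 s)^d`. -/
theorem exists_sep {d : ℕ} {s : ℝ} (hs : 0 < s) (W : Set (Fin d → ℝ))
    (hW : ∀ v ∈ W, ∀ i, 0 ≤ v i ∧ v i ≤ 1) :
    ∃ V : Finset (Fin d → ℝ), (∀ v ∈ V, v ∈ W) ∧
      (∀ v ∈ V, ∀ w ∈ V, v ≠ w → ∃ i, s ≤ |v i - w i|) ∧
      volume W ≤ (V.card : ℝ≥0∞) * ENNReal.ofReal ((2 * s) ^ d) := by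
  classical
  set cellOf : (Fin d → ℝ) → Fin d → ℤ := fun v i => ⌊v i / s⌋ with hcell
  -- the cells meeting `W`
  have hfin : (cellOf '' W).Finite := by
    apply (Set.finite_Icc (0 : Fin d → ℤ) (fun _ => ⌊1 / s⌋)).subset
    rintro _ ⟨v, hv, rfl⟩
    constructor
    · intro i
      exact Int.floor_nonneg.2 (div_nonneg (hW v hv i).1 hs.le)
    · intro i
      exact Int.floor_le_floor (div_le_div_of_nonneg_right (hW v hv i).2 hs.le)
  set Z : Finset (Fin d → ℤ) := hfin.toFinset with hZ
  have hmemZ : ∀ z, z ∈ Z ↔ ∃ v ∈ W, cellOf v = z := by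
    intro z; rw [hZ, Set.Finite.mem_toFinset]; rfl
  have hrep : ∀ z : Z, ∃ v ∈ W, cellOf v = z.1 := fun z => (hmemZ z.1).1 z.2
  choose r hr1 hr2 using hrep
  -- parity classes
  set par : (Fin d → ℤ) → Fin d → ZMod 2 := fun z i => (z i : ZMod 2) with hpar
  obtain ⟨q, -, hq⟩ := Finset.exists_max_image (univ : Finset (Fin d → ZMod 2))
    (fun q => (Z.filter fun z => par z = q).card) Finset.univ_nonempty
  have hcardle : Z.card ≤ 2 ^ d * (Z.filter fun z => par z = q).card := by
    have h1 : Z.card = ∑ q' : Fin d → ZMod 2, (Z.filter fun z => par z = q').card :=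
      Finset.card_eq_sum_card_fiberwise (fun z _ => Finset.mem_univ _)
    rw [h1]
    calc ∑ q' : Fin d → ZMod 2, (Z.filter fun z => par z = q').card
        ≤ ∑ _q' : Fin d → ZMod 2, (Z.filter fun z => par z = q).card :=
          Finset.sum_le_sum fun q' _ => hq q' (Finset.mem_univ _)
      _ = _ := by
          rw [Finset.sum_const, Finset.card_univ, Fintype.card_fun, ZMod.card, Fintype.card_fin,
            smul_eq_mul]
  set Zq := Z.filter fun z => par z = q with hZq
  set rr : (Fin d → ℤ) → (Fin d → ℝ) := fun z => if h : z ∈ Z then r ⟨z, h⟩ else 0 with hrr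
  have hrr1 : ∀ z ∈ Z, rr z ∈ W := by
    intro z hz; simp only [hrr, dif_pos hz]; exact hr1 _
  have hrr2 : ∀ z ∈ Z, cellOf (rr z) = z := by
    intro z hz; simp only [hrr, dif_pos hz]; exact hr2 _
  have hinj : Set.InjOn rr (Zq : Set (Fin d → ℤ)) := by
    intro z hz w hw hzw
    rw [hZq, Finset.coe_filter] at hz hw
    rw [← hrr2 z hz.1, ← hrr2 w hw.1, hzw]
  refine ⟨Zq.image rr, ?_, ?_, ?_⟩
  · intro v hv
    rw [Finset.mem_image] at hv
    obtain ⟨z, hz, rfl⟩ := hv
    exact hrr1 z (Finset.mem_filter.1 hz).1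
  · intro v hv w hw hne
    rw [Finset.mem_image] at hv hw
    obtain ⟨z, hz, rfl⟩ := hv
    obtain ⟨z', hz', rfl⟩ := hw
    have hz1 := Finset.mem_filter.1 hz
    have hz2 := Finset.mem_filter.1 hz'
    have hzz : z ≠ z' := fun h => hne (by rw [h])
    obtain ⟨i, hi⟩ := Function.ne_iff.1 hzz
    refine ⟨i, ?_⟩
    have h1 : (z i : ZMod 2) = (z' i : ZMod 2) := by
      have := congrFun (hz1.2.trans hz2.2.symm) i
      exact this
    have h2 : (2 : ℤ) ∣ z i - z' i := by
      have h3 := (ZMod.intCast_eq_intCast_iff_dvd_sub (z' i) (z i) 2).1 h1.symm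
      exact_mod_cast h3
    have h3 : 2 ≤ |z i - z' i| := by
      have h4 : z i - z' i ≠ 0 := sub_ne_zero.2 hi
      have h5 := Int.le_of_dvd (abs_pos.2 h4) ((dvd_abs _ _).2 h2)
      exact h5
    have e1 : cellOf (rr z) i = z i := by rw [hrr2 z hz1.1]
    have e2 : cellOf (rr z') i = z' i := by rw [hrr2 z' hz2.1]
    simp only [hcell] at e1 e2
    have a1 := Int.floor_le (rr z i / s)
    have a2 := Int.lt_floor_add_one (rr z i / s)
    have b1 := Int.floor_le (rr z' i / s)
    have b2 := Int.lt_floor_add_one (rr z' i / s)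
    rw [e1] at a1 a2
    rw [e2] at b1 b2
    have h6 : (1 : ℝ) ≤ |rr z i / s - rr z' i / s| := by
      have h7 : (2 : ℝ) ≤ |(z i : ℝ) - z' i| := by exact_mod_cast h3
      rcases le_abs.1 h7 with h | h
      · exact le_abs.2 (Or.inl (by linarith))
      · exact le_abs.2 (Or.inr (by linarith))
    rw [← sub_div, abs_div, abs_of_pos hs, le_div_iff₀ hs, one_mul] at h6
    exact h6
  · have hcover : W ⊆ ⋃ z ∈ Z, Set.pi univ fun i => Ico (s * z i) (s * (z i + 1)) := by
      intro v hv
      rw [Set.mem_iUnion₂]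
      refine ⟨cellOf v, (hmemZ _).2 ⟨v, hv, rfl⟩, ?_⟩
      intro i _
      have a1 := Int.floor_le (v i / s)
      have a2 := Int.lt_floor_add_one (v i / s)
      rw [le_div_iff₀ hs] at a1
      rw [div_lt_iff₀ hs] at a2
      simp only [hcell]
      constructor <;> linarith
    have hvol : ∀ z : Fin d → ℤ, volume (Set.pi univ fun i : Fin d => Ico (s * (z i : ℝ)) (s * (z i + 1)))
        = ENNReal.ofReal (s ^ d) := by
      intro z
      rw [Real.volume_pi_Ico]
      have : ∀ i : Fin d, s * ((z i : ℝ) + 1) - s * (z i : ℝ) = s := fun i => by ring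
      simp only [this, Finset.prod_const, Finset.card_univ, Fintype.card_fin]
      rw [ENNReal.ofReal_pow hs.le]
    calc volume W ≤ ∑ z ∈ Z, volume (Set.pi univ fun i : Fin d => Ico (s * (z i : ℝ)) (s * (z i + 1))) :=
          (measure_mono hcover).trans (measure_biUnion_finset_le _ _)
      _ = (Z.card : ℝ≥0∞) * ENNReal.ofReal (s ^ d) := by
          rw [Finset.sum_congr rfl fun z _ => hvol z, Finset.sum_const, nsmul_eq_mul]
      _ ≤ ((2 ^ d * Zq.card : ℕ) : ℝ≥0∞) * ENNReal.ofReal (s ^ d) := by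
          gcongr
      _ = ((Zq.image rr).card : ℝ≥0∞) * ENNReal.ofReal ((2 * s) ^ d) := by
          rw [Finset.card_image_of_injOn hinj, mul_pow, ENNReal.ofReal_mul (by positivity)]
          push_cast
          have : ENNReal.ofReal (2 ^ d) = 2 ^ d := by
            rw [ENNReal.ofReal_pow (by norm_num)]; simp
          rw [this]
          ring

end Pool.Agent.X84.Kk
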