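import Pool.Agent.W46.KK.Kak
import Pool.Agent.X84.Kk.Sep

set_option autoImplicit false
open MeasureTheory Set Finset
open scoped ENNReal

namespace Pool.Agent.X84.Kk
open Pool.Agent.W46.KK

/-- **Van der Waerden's theorem**, for homothetic copies of a finite set of reals, finite form. -/
theorem vdw (R : Finset ℝ) (J : ℕ) : ∃ (P : Finset (ℝ × ℝ)) (Q : ℝ), 0 < Q ∧
    (∀ q ∈ P, 1 ≤ q.2) ∧ (∀ q ∈ P, ∀ s ∈ R, |q.1 + q.2 * s| ≤ Q) ∧
    ∀ χ : ℝ → Fin J, ∃ q ∈ P, ∃ j, ∀ s ∈ R, χ (q.1 + q.2 * s) = j := by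
  classical
  obtain ⟨ι, hι, hHJ⟩ := Combinatorics.Line.exists_mono_in_high_dimension R (Fin J)
  set bb : (ι → Option R) → ℝ := fun g => ∑ i, ((g i).elim 0 (fun y => (y : ℝ))) with hbb
  set aa : (ι → Option R) → ℝ := fun g => ((univ.filter fun i => g i = none).card : ℝ) with haa
  set P : Finset (ℝ × ℝ) := ((univ : Finset (ι → Option R)).filter fun g => ∃ i, g i = none).image
    (fun g => (bb g, aa g)) with hP
  refine ⟨P, 1 + ∑ q ∈ P, ∑ s ∈ R, |q.1 + q.2 * s|, ?_, ?_, ?_, ?_⟩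
  · have : 0 ≤ ∑ q ∈ P, ∑ s ∈ R, |q.1 + q.2 * s| :=
      Finset.sum_nonneg fun _ _ => Finset.sum_nonneg fun _ _ => abs_nonneg _
    linarith
  · intro q hq
    rw [hP, Finset.mem_image] at hq
    obtain ⟨g, hg, rfl⟩ := hq
    obtain ⟨i, hi⟩ := (Finset.mem_filter.1 hg).2
    simp only [haa]
    have : 0 < (univ.filter fun i => g i = none).card :=
      Finset.card_pos.2 ⟨i, Finset.mem_filter.2 ⟨Finset.mem_univ _, hi⟩⟩
    exact_mod_cast this
  · intro q hq s hs
    have h1 : |q.1 + q.2 * s| ≤ ∑ s ∈ R, |q.1 + q.2 * s| :=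
      Finset.single_le_sum (f := fun s => |q.1 + q.2 * s|) (fun _ _ => abs_nonneg _) hs
    have h2 : ∑ s ∈ R, |q.1 + q.2 * s| ≤ ∑ q ∈ P, ∑ s ∈ R, |q.1 + q.2 * s| :=
      Finset.single_le_sum (f := fun q : ℝ × ℝ => ∑ s ∈ R, |q.1 + q.2 * s|)
        (fun _ _ => Finset.sum_nonneg fun _ _ => abs_nonneg _) hq
    linarith
  · intro χ
    obtain ⟨l, j, hj⟩ := hHJ (fun f => χ (∑ i, (f i : ℝ)))
    refine ⟨(bb l.idxFun, aa l.idxFun), ?_, j, ?_⟩
    · rw [hP]
      exact Finset.mem_image_of_mem _ (Finset.mem_filter.2 ⟨Finset.mem_univ _, l.proper⟩)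
    · intro s hs
      have h1 := hj ⟨s, hs⟩
      simp only at h1
      rw [← h1]
      congr 1
      simp only [hbb, haa]
      rw [Finset.card_filter]
      push_cast
      rw [Finset.sum_mul, ← Finset.sum_add_distrib]
      refine Finset.sum_congr rfl fun i _ => ?_
      rw [Combinatorics.Line.apply_def]
      cases hli : l.idxFun i with
      | none => simp [hli]
      | some y => simp [hli]

/-- the real inequality used below -/
lemma real_part {N x r η hh C g c : ℝ} (d : ℕ) (hN : 0 < N) (hx : 0 ≤ x) (hr : 0 < r)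
    (hη : hh ≤ η) (hh0 : 0 < hh) (hc : 0 < c)
    (h6 : x ^ (1 / c) ≤ C * (g / r ^ d)) :
    0 ≤ N * (x * (2 * (2 * r / η)) ^ d) ∧ (N * (x * (2 * (2 * r / η)) ^ d)) ^ (1 / c) ≤
      (N ^ (1 / c) * C * (4 / hh) ^ ((d : ℝ) / c)) * (r ^ ((d : ℝ) / c - d) * g) := by
  have hη0 : 0 < η := by linarith
  refine ⟨by positivity, ?_⟩
  have e1 : (N * (x * (2 * (2 * r / η)) ^ d)) ^ (1 / c) = N ^ (1 / c) * (x ^ (1 / c) *
      (2 * (2 * r / η)) ^ ((d : ℝ) / c)) := by
    rw [Real.mul_rpow hN.le (by positivity), Real.mul_rpow (by positivity) (by positivity),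
      ← Real.rpow_natCast, ← Real.rpow_mul (by positivity), mul_one_div]
  have e2 : (2 * (2 * r / η)) ^ ((d : ℝ) / c) ≤ (4 / hh) ^ ((d : ℝ) / c) * r ^ ((d : ℝ) / c) := by
    rw [← Real.mul_rpow (by positivity) (by positivity)]
    apply Real.rpow_le_rpow (by positivity) _ (by positivity)
    have : 2 * (2 * r / η) = 4 * r / η := by ring
    rw [this, div_mul_eq_mul_div]
    gcongr
  have e4 : r ^ ((d : ℝ) / c - d) * g = r ^ ((d : ℝ) / c) * (g / r ^ d) := by
    rw [Real.rpow_sub hr, Real.rpow_natCast]; ring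
  have h0 : 0 ≤ C * (g / r ^ d) := (Real.rpow_nonneg hx _).trans h6
  rw [e1, e4]
  calc N ^ (1 / c) * (x ^ (1 / c) * (2 * (2 * r / η)) ^ ((d : ℝ) / c))
      ≤ N ^ (1 / c) * ((C * (g / r ^ d)) * ((4 / hh) ^ ((d : ℝ) / c) * r ^ ((d : ℝ) / c))) := by
        gcongr
    _ = _ := by ring

/-- one slab, `J` colours -/
theorem slabJ {S : Finset ℚ} {c : ℝ} (hS : SDS S c) (hc : 1 ≤ c) (d J : ℕ) (μ : ℝ) (hμ : 0 < μ) :
    ∃ κ : ℝ, 0 < κ ∧ ∀ (W : Set (Fin d → ℝ)) (p : (Fin d → ℝ) → Fin d → ℝ) (a : ℝ)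
      (ρ : Fin J → ℝ) (T : Fin J → Set (ℝ × (Fin d → ℝ))) (col : (Fin d → ℝ) → ℝ → Fin J),
      (∀ v ∈ W, ∀ i, 0 ≤ v i ∧ v i ≤ 1) → (∀ j, 0 < ρ j) → (∀ j, MeasurableSet (T j)) →
      (∀ v ∈ W, ∀ t ∈ Set.Ico a (a + μ), ∀ y : Fin d → ℝ,
        (∀ i, |y i - (p v i + t * v i)| ≤ ρ (col v t)) → (t, y) ∈ T (col v t)) →
      ENNReal.ofReal κ * (volume W) ^ (1 / c) ≤
        ∑ j, ENNReal.ofReal (ρ j ^ ((d : ℝ) / c - d)) *
          volume (T j ∩ (Set.Ico a (a + μ) ×ˢ Set.univ)) := by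
  classical
  have hc0 : 0 < c := by linarith
  obtain ⟨C, hC1, hcore⟩ := core hS hc0.le d
  set R : Finset ℝ := insert 1 (S.image fun r : ℚ => (r : ℝ) / (1 + r)) with hR
  obtain ⟨P, Q, hQ, hP1, hPQ, hvdw⟩ := vdw R J
  set hh : ℝ := μ / (4 * Q) with hhh
  have hhpos : 0 < hh := by positivity
  have hbound : ∀ q ∈ P, ∀ s ∈ R, |hh * (q.1 + q.2 * s)| ≤ μ / 4 := by
    intro q hq s hs
    rw [abs_mul, abs_of_pos hhpos, hhh]
    calc μ / (4 * Q) * |q.1 + q.2 * s| ≤ μ / (4 * Q) * Q := by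
          gcongr; exact hPQ q hq s hs
      _ = μ / 4 := by field_simp
  have hRpos : (0 : ℝ) < (R.card : ℝ) := by
    have : 0 < R.card := Finset.card_pos.mpr ⟨1, Finset.mem_insert_self _ _⟩
    exact_mod_cast this
  set N : ℝ := (P.card : ℝ) * J + 1 with hN
  have hNpos : 0 < N := by positivity
  set κ₁ : ℝ := 1 / (N ^ (1 / c) * C * (4 / hh) ^ ((d : ℝ) / c)) with hκ₁
  have hκ₁pos : 0 < κ₁ := by positivity
  set NP : ℝ := ((P.card : ℝ) + 1) * R.card with hNP
  have hNPpos : 0 < NP := by positivity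
  refine ⟨κ₁ * (μ / 2) / NP, by positivity, ?_⟩
  intro W p a ρ T col hW hρ hT hV
  rcases W.eq_empty_or_nonempty with hWe | ⟨v₀, hv₀⟩
  · rw [hWe, measure_empty, ENNReal.zero_rpow_of_pos (by positivity), mul_zero]
    exact zero_le
  set slabT : Fin J → Set (ℝ × (Fin d → ℝ)) := fun j =>
    T j ∩ (Set.Ico a (a + μ) ×ˢ (Set.univ : Set (Fin d → ℝ))) with hslab
  have hslabmeas : ∀ j, MeasurableSet (slabT j) := fun j =>
    (hT j).inter (measurableSet_Ico.prod MeasurableSet.univ)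
  set G : Fin J → ℝ → ℝ≥0∞ := fun j t => volume (Prod.mk t ⁻¹' slabT j) with hG
  have hGm : ∀ j, Measurable (G j) := fun j => measurable_measure_prodMk_left (hslabmeas j)
  have hGint : ∀ j, ∫⁻ t, G j t = volume (slabT j) := fun j => by
    rw [Measure.volume_eq_prod, Measure.prod_apply (hslabmeas j)]
  set mid : Set ℝ := Set.Ico (a + μ / 4) (a + 3 * μ / 4) with hmid
  have hmidvol : volume mid = ENNReal.ofReal (μ / 2) := by
    rw [hmid, Real.volume_Ico]; congr 1; ring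
  have hht : ∀ x ∈ mid, ∀ q ∈ P, ∀ s ∈ R, x + hh * (q.1 + q.2 * s) ∈ Set.Ico a (a + μ) := by
    intro x hx q hq s hs
    have h1 := abs_le.1 (hbound q hq s hs)
    rw [hmid] at hx
    constructor <;> [linarith [hx.1, h1.1]; linarith [hx.2, h1.2]]
  -- the pointwise inequality
  have hpt : ∀ x ∈ mid, ENNReal.ofReal κ₁ * (volume W) ^ (1 / c) ≤
      ∑ j, ∑ q ∈ P, ∑ s ∈ R, ENNReal.ofReal (ρ j ^ ((d : ℝ) / c - d)) *
        G j (x + hh * (q.1 + q.2 * s)) := by
    intro x hx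
    set Wqj : (ℝ × ℝ) × Fin J → Set (Fin d → ℝ) := fun z =>
      {v | v ∈ W ∧ ∀ s ∈ R, col v (x + hh * (z.1.1 + z.1.2 * s)) = z.2} with hWqj
    have hcover : W ⊆ ⋃ z ∈ P ×ˢ (univ : Finset (Fin J)), Wqj z := by
      intro v hv
      obtain ⟨q, hq, j, hj⟩ := hvdw (fun τ => col v (x + hh * τ))
      rw [Set.mem_iUnion₂]
      exact ⟨(q, j), Finset.mem_product.2 ⟨hq, Finset.mem_univ _⟩, hv, hj⟩
    have hne : (P ×ˢ (univ : Finset (Fin J))).Nonempty := by
      have := hcover hv₀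
      rw [Set.mem_iUnion₂] at this
      obtain ⟨z, hz, _⟩ := this
      exact ⟨z, hz⟩
    obtain ⟨⟨q, j⟩, hqj, hmax⟩ := Finset.exists_max_image _ (fun z => volume (Wqj z)) hne
    have hq : q ∈ P := (Finset.mem_product.1 hqj).1
    have hWle : volume W ≤ ENNReal.ofReal N * volume (Wqj (q, j)) := by
      calc volume W ≤ ∑ z ∈ P ×ˢ (univ : Finset (Fin J)), volume (Wqj z) :=
            (measure_mono hcover).trans (measure_biUnion_finset_le _ _)
        _ ≤ ∑ _z ∈ P ×ˢ (univ : Finset (Fin J)), volume (Wqj (q, j)) :=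
            Finset.sum_le_sum fun z hz => hmax z hz
        _ = ((P.card * J : ℕ) : ℝ≥0∞) * volume (Wqj (q, j)) := by
            rw [Finset.sum_const, Finset.card_product, Finset.card_univ, Fintype.card_fin,
              nsmul_eq_mul]
        _ ≤ _ := by
            gcongr
            rw [← ENNReal.ofReal_natCast]
            apply ENNReal.ofReal_le_ofReal
            rw [hN]; push_cast; linarith
    have hq2 := hP1 q hq
    set η : ℝ := hh * q.2 with hη
    have hηpos : 0 < η := by positivity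
    have hηh : hh ≤ η := by rw [hη]; nlinarith
    obtain ⟨V, hV1, hV2, hV3⟩ := exists_sep (s := 2 * ρ j / η) (by have := hρ j; positivity)
      (Wqj (q, j)) (fun v hv => hW v hv.1)
    have hterm : ∀ s ∈ R, (((V.image (pos (ρ j) p (x + hh * (q.1 + q.2 * s)))).card : ℕ) : ℝ≥0∞) *
        ENNReal.ofReal (ρ j) ^ d ≤ G j (x + hh * (q.1 + q.2 * s)) := by
      intro s hs
      refine card_mul_le (hρ j) V (fun v i => p v i + (x + hh * (q.1 + q.2 * s)) * v i) _ ?_
      intro v hv y hy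
      have hv' := hV1 v hv
      have hcol := hv'.2 s hs
      have h1 := hV v hv'.1 _ (hht x hx q hq s hs) y (by rw [hcol]; exact hy)
      rw [hcol] at h1
      exact ⟨h1, hht x hx q hq s hs, Set.mem_univ _⟩
    -- the sum over `R`
    have hsub : ENNReal.ofReal (ρ j ^ ((d : ℝ) / c - d)) *
        ∑ s ∈ R, G j (x + hh * (q.1 + q.2 * s)) ≤
        ∑ j, ∑ q ∈ P, ∑ s ∈ R, ENNReal.ofReal (ρ j ^ ((d : ℝ) / c - d)) *
          G j (x + hh * (q.1 + q.2 * s)) := by
      rw [Finset.mul_sum]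
      refine le_trans ?_ (Finset.single_le_sum
        (f := fun j => ∑ q ∈ P, ∑ s ∈ R, ENNReal.ofReal (ρ j ^ ((d : ℝ) / c - d)) *
          G j (x + hh * (q.1 + q.2 * s))) (fun _ _ => zero_le) (Finset.mem_univ j))
      exact Finset.single_le_sum
        (f := fun q : ℝ × ℝ => ∑ s ∈ R, ENNReal.ofReal (ρ j ^ ((d : ℝ) / c - d)) *
          G j (x + hh * (q.1 + q.2 * s))) (fun _ _ => zero_le) hq
    refine le_trans ?_ hsub
    set Sg : ℝ≥0∞ := ∑ s ∈ R, G j (x + hh * (q.1 + q.2 * s)) with hSg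
    have hρj := hρ j
    by_cases htop : Sg = ⊤
    · rw [htop, ENNReal.mul_top]
      · exact le_top
      · simp only [ne_eq, ENNReal.ofReal_eq_zero, not_le]; positivity
    set g : ℝ := Sg.toReal with hg
    have hgnn : 0 ≤ g := ENNReal.toReal_nonneg
    have hSgeq : Sg = ENNReal.ofReal g := (ENNReal.ofReal_toReal htop).symm
    set B : ℝ := g / ρ j ^ d with hB
    have hBs : ∀ s ∈ R, ((V.image (pos (ρ j) p (x + hh * (q.1 + q.2 * s)))).card : ℝ) ≤ B := by
      intro s hs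
      have h1 : G j (x + hh * (q.1 + q.2 * s)) ≤ Sg :=
        Finset.single_le_sum (f := fun s => G j (x + hh * (q.1 + q.2 * s))) (fun _ _ => zero_le) hs
      have h2 := (hterm s hs).trans h1
      rw [hSgeq, ← ENNReal.ofReal_pow hρj.le, ← ENNReal.ofReal_natCast,
        ← ENNReal.ofReal_mul (Nat.cast_nonneg _), ENNReal.ofReal_le_ofReal_iff hgnn] at h2
      rw [hB, le_div_iff₀ (by positivity)]
      exact h2
    have key := hcore (ρ j) hρj V p (x + hh * q.1) η hηpos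
      (by
        intro v hv w hw hne
        obtain ⟨i, hi⟩ := hV2 v hv w hw hne
        exact ⟨i, hi⟩) B
      (by
        have := hBs 1 (Finset.mem_insert_self _ _)
        convert this using 5
        rw [hη]; ring)
      (by
        intro r hr
        have := hBs _ (Finset.mem_insert_of_mem (Finset.mem_image_of_mem
          (fun r : ℚ => (r : ℝ) / (1 + r)) hr))
        convert this using 5
        rw [hη]; ring)
    have hBnn : 0 ≤ B := by rw [hB]; positivity
    have h6 : ((V.card : ℝ)) ^ (1 / c) ≤ C * B := by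
      have h7 := Real.rpow_le_rpow (Nat.cast_nonneg _) key (by positivity : 0 ≤ 1 / c)
      rwa [← Real.rpow_mul (by positivity), mul_one_div_cancel hc0.ne', Real.rpow_one] at h7
    obtain ⟨hXnn, hXc'⟩ := real_part (C := C) (g := g) d hNpos (Nat.cast_nonneg V.card) hρj hηh hhpos hc0 h6
    obtain ⟨X, hX⟩ : ∃ X : ℝ, X = N * ((V.card : ℝ) * (2 * (2 * ρ j / η)) ^ d) := ⟨_, rfl⟩
    rw [← hX] at hXnn hXc'
    have hWX : volume W ≤ ENNReal.ofReal X := by
      refine hWle.trans ?_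
      rw [hX, ENNReal.ofReal_mul hNpos.le, ENNReal.ofReal_mul (Nat.cast_nonneg _),
        ENNReal.ofReal_natCast]
      exact mul_le_mul_right hV3 _
    have hW2 : (volume W) ^ (1 / c) ≤ ENNReal.ofReal (X ^ (1 / c)) := by
      rw [← ENNReal.ofReal_rpow_of_nonneg hXnn (by positivity)]
      exact ENNReal.rpow_le_rpow hWX (by positivity)
    have hXc : X ^ (1 / c) ≤ κ₁⁻¹ * (ρ j ^ ((d : ℝ) / c - d) * g) := by
      have e3 : κ₁⁻¹ = N ^ (1 / c) * C * (4 / hh) ^ ((d : ℝ) / c) := by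
        rw [hκ₁, one_div, inv_inv]
      rw [e3]; exact hXc'
    calc ENNReal.ofReal κ₁ * (volume W) ^ (1 / c)
        ≤ ENNReal.ofReal κ₁ * ENNReal.ofReal (κ₁⁻¹ * (ρ j ^ ((d : ℝ) / c - d) * g)) := by
          gcongr
          exact hW2.trans (ENNReal.ofReal_le_ofReal hXc)
      _ = ENNReal.ofReal (ρ j ^ ((d : ℝ) / c - d)) * Sg := by
          rw [← ENNReal.ofReal_mul hκ₁pos.le, ← mul_assoc, mul_inv_cancel₀ hκ₁pos.ne', one_mul,
            ENNReal.ofReal_mul (by positivity), hSgeq]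
  -- integrate
  have hint : ENNReal.ofReal κ₁ * (volume W) ^ (1 / c) * ENNReal.ofReal (μ / 2) ≤
      ENNReal.ofReal NP * ∑ j, ENNReal.ofReal (ρ j ^ ((d : ℝ) / c - d)) * volume (slabT j) := by
    calc ENNReal.ofReal κ₁ * (volume W) ^ (1 / c) * ENNReal.ofReal (μ / 2)
        = ∫⁻ _ in mid, ENNReal.ofReal κ₁ * (volume W) ^ (1 / c) := by
          rw [setLIntegral_const, hmidvol]
      _ ≤ ∫⁻ x in mid, ∑ j, ∑ q ∈ P, ∑ s ∈ R, ENNReal.ofReal (ρ j ^ ((d : ℝ) / c - d)) *
            G j (x + hh * (q.1 + q.2 * s)) :=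
          setLIntegral_mono' measurableSet_Ico hpt
      _ ≤ ∫⁻ x, ∑ j, ∑ q ∈ P, ∑ s ∈ R, ENNReal.ofReal (ρ j ^ ((d : ℝ) / c - d)) *
            G j (x + hh * (q.1 + q.2 * s)) := setLIntegral_le_lintegral _ _
      _ = ∑ j, ∑ q ∈ P, ∑ s ∈ R, ENNReal.ofReal (ρ j ^ ((d : ℝ) / c - d)) * volume (slabT j) := by
          have hm : ∀ j, ∀ q : ℝ × ℝ, ∀ s : ℝ, Measurable fun x : ℝ =>
              ENNReal.ofReal (ρ j ^ ((d : ℝ) / c - d)) * G j (x + hh * (q.1 + q.2 * s)) :=
            fun j q s => ((hGm j).comp (measurable_id.add_const _)).const_mul _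
          rw [lintegral_finsetSum _ fun j _ => Finset.measurable_fun_sum _ fun q _ =>
            Finset.measurable_fun_sum _ fun s _ => hm j q s]
          refine Finset.sum_congr rfl fun j _ => ?_
          rw [lintegral_finsetSum _ fun q _ => Finset.measurable_fun_sum _ fun s _ => hm j q s]
          refine Finset.sum_congr rfl fun q _ => ?_
          rw [lintegral_finsetSum _ fun s _ => hm j q s]
          refine Finset.sum_congr rfl fun s _ => ?_
          rw [lintegral_const_mul (f := fun x => G j (x + hh * (q.1 + q.2 * s))) _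
              ((hGm j).comp (measurable_id.add_const _)),
            lintegral_add_right_eq_self (fun t => G j t) (hh * (q.1 + q.2 * s)), hGint]
      _ = ENNReal.ofReal ((P.card : ℝ) * R.card) *
            ∑ j, ENNReal.ofReal (ρ j ^ ((d : ℝ) / c - d)) * volume (slabT j) := by
          rw [Finset.mul_sum]
          refine Finset.sum_congr rfl fun j _ => ?_
          simp only [Finset.sum_const, nsmul_eq_mul]
          rw [← mul_assoc, ENNReal.ofReal_mul (Nat.cast_nonneg _), ENNReal.ofReal_natCast,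
            ENNReal.ofReal_natCast]
      _ ≤ _ := by
          gcongr
          rw [hNP]
          gcongr
          linarith
  have hfin : ENNReal.ofReal (κ₁ * (μ / 2) / NP) * (volume W) ^ (1 / c) =
      (ENNReal.ofReal NP)⁻¹ * (ENNReal.ofReal κ₁ * (volume W) ^ (1 / c) * ENNReal.ofReal (μ / 2)) := by
    rw [div_eq_inv_mul, ENNReal.ofReal_mul (by positivity), ENNReal.ofReal_mul hκ₁pos.le,
      ENNReal.ofReal_inv_of_pos hNPpos]
    ring
  rw [hfin]
  calc (ENNReal.ofReal NP)⁻¹ * (ENNReal.ofReal κ₁ * (volume W) ^ (1 / c) * ENNReal.ofReal (μ / 2))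
      ≤ (ENNReal.ofReal NP)⁻¹ * (ENNReal.ofReal NP *
          ∑ j, ENNReal.ofReal (ρ j ^ ((d : ℝ) / c - d)) * volume (slabT j)) := by gcongr
    _ = _ := by
        rw [← mul_assoc, ENNReal.inv_mul_cancel, one_mul]
        · simp only [ne_eq, ENNReal.ofReal_eq_zero, not_le]; exact hNPpos
        · exact ENNReal.ofReal_ne_top

end Pool.Agent.X84.Kk
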