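import Pool.Agent.W46.KK.Final
import Pool.Agent.X84.Kk.Slab

set_option autoImplicit false
open MeasureTheory Set Finset
open scoped ENNReal

namespace Pool.Agent.X84.Kk
open Pool.Agent.W46.KK

/-- **Neighbourhoods of a finite decomposition of a Kakeya set.** -/
theorem volJ {c : ℝ} (h : SD c) (hc : 1 ≤ c) (d J : ℕ) :
    ∃ κ : ℝ, 0 < κ ∧ ∀ K : Set (EuclideanSpace ℝ (Fin (d + 1))), HasSegments K →
      ∀ (F : Fin J → Set (EuclideanSpace ℝ (Fin (d + 1)))) (δ : Fin J → ℝ), K ⊆ ⋃ j, F j →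
        (∀ j, 0 < δ j) → ENNReal.ofReal κ ≤
          ∑ j, ENNReal.ofReal (δ j ^ ((d : ℝ) / c - d)) * volume (Metric.thickening (δ j) (F j)) := by
  classical
  obtain ⟨S, hS⟩ := h
  have hc0 : 0 < c := by linarith
  set lam : ℝ := 1 / (d + 1) with hlam
  set μ : ℝ := lam / 2 with hμ
  have hlampos : 0 < lam := by positivity
  have hμpos : 0 < μ := by positivity
  obtain ⟨κ, hκ, hslab⟩ := slabJ hS hc d J μ hμpos
  have hd1 : (0 : ℝ) < (d : ℝ) + 1 := by positivity
  refine ⟨κ * (1 / ((d : ℝ) + 1)) ^ ((d : ℝ) - d / c), by positivity, ?_⟩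
  intro K hK F r hKF hr
  -- the vector `(1, v)`
  set w : (Fin d → ℝ) → EuclideanSpace ℝ (Fin (d + 1)) := fun v => WithLp.toLp 2 (Fin.cons 1 v)
    with hw
  have hw0 : ∀ v, (w v) 0 = 1 := fun v => rfl
  have hws : ∀ v i, (w v) (Fin.succ i) = v i := fun v i => rfl
  have hnorm1 : ∀ v, 1 ≤ ‖w v‖ := by
    intro v
    have := PiLp.norm_apply_le (w v) 0
    rw [hw0] at this
    simpa using this
  have hex : ∀ v : Fin d → ℝ, ∃ a : EuclideanSpace ℝ (Fin (d + 1)),
      ∀ t ∈ Set.Icc (0 : ℝ) 1, a + t • (‖w v‖⁻¹ • w v) ∈ K := by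
    intro v
    apply hK
    rw [norm_smul, norm_inv, norm_norm]
    exact inv_mul_cancel₀ (by have := hnorm1 v; positivity)
  choose a ha using hex
  -- `J` is positive
  have hJ : 0 < J := by
    have h1 := ha 0 0 (by simp)
    have h2 := hKF h1
    rw [Set.mem_iUnion] at h2
    obtain ⟨j, _⟩ := h2
    exact j.pos
  set pt : (Fin d → ℝ) → ℝ → EuclideanSpace ℝ (Fin (d + 1)) := fun v t => a v + (t - a v 0) • w v
    with hpt
  have hptK : ∀ v : Fin d → ℝ, (∀ i, 0 ≤ v i ∧ v i ≤ 1) → ∀ t ∈ Set.Icc (a v 0) (a v 0 + lam),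
      pt v t ∈ K := by
    intro v hv t ht
    have hnle : ‖w v‖ ≤ d + 1 := by
      rw [EuclideanSpace.norm_eq]
      apply Real.sqrt_le_iff.mpr
      refine ⟨by positivity, ?_⟩
      rw [Fin.sum_univ_succ]
      have h1 : ∑ i : Fin d, ‖(w v) (Fin.succ i)‖ ^ 2 ≤ ∑ _i : Fin d, (1 : ℝ) := by
        refine Finset.sum_le_sum fun i _ => ?_
        rw [hws, Real.norm_eq_abs, sq_abs]
        have := hv i
        nlinarith
      rw [Finset.sum_const, Finset.card_univ, Fintype.card_fin, nsmul_eq_mul, mul_one] at h1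
      rw [hw0]
      have hdnn : (0 : ℝ) ≤ d := Nat.cast_nonneg d
      simp only [norm_one, one_pow]
      nlinarith
    have h2 := ha v ((t - a v 0) * ‖w v‖) ⟨by
        have := ht.1
        have := hnorm1 v
        exact mul_nonneg (by linarith) (by linarith), by
        have h3 : t - a v 0 ≤ 1 / (d + 1) := by linarith [ht.2]
        calc (t - a v 0) * ‖w v‖ ≤ 1 / (d + 1) * (d + 1) := by
              apply mul_le_mul h3 hnle (norm_nonneg _) (by positivity)
          _ = 1 := by field_simp⟩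
    rw [smul_smul, mul_assoc, mul_inv_cancel₀ (by have := hnorm1 v; positivity), mul_one] at h2
    exact h2
  set col : (Fin d → ℝ) → ℝ → Fin J := fun v t =>
    if h : ∃ j, pt v t ∈ F j then h.choose else ⟨0, hJ⟩ with hcol
  have hcolmem : ∀ v : Fin d → ℝ, (∀ i, 0 ≤ v i ∧ v i ≤ 1) →
      ∀ t ∈ Set.Icc (a v 0) (a v 0 + lam), pt v t ∈ F (col v t) := by
    intro v hv t ht
    have h1 : ∃ j, pt v t ∈ F j := by
      have := hKF (hptK v hv t ht)
      rwa [Set.mem_iUnion] at this
    simp only [hcol, dif_pos h1]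
    exact h1.choose_spec
  set cube : Set (Fin d → ℝ) := Set.Icc (fun _ => 0) (fun _ => 1) with hcube
  have hcubemem : ∀ v ∈ cube, ∀ i, 0 ≤ v i ∧ v i ≤ 1 := fun v hv i => ⟨hv.1 i, hv.2 i⟩
  have hcubevol : volume cube = 1 := by
    rw [hcube, Real.volume_Icc_pi]
    simp
  set ρ : Fin J → ℝ := fun j => r j / (d + 1) with hρ
  have hρpos : ∀ j, 0 < ρ j := fun j => by have := hr j; simp only [hρ]; positivity
  set T : Fin J → Set (ℝ × (Fin d → ℝ)) := fun j => (eqv d).symm ⁻¹' Metric.thickening (r j) (F j)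
    with hT
  have hTm : ∀ j, MeasurableSet (T j) := fun j =>
    (eqv d).symm.measurable Metric.isOpen_thickening.measurableSet
  set W : ℤ → Set (Fin d → ℝ) := fun m => {v | v ∈ cube ∧ ⌈a v 0 / μ⌉ = m} with hW
  have hone : ∀ m : ℤ, ENNReal.ofReal κ * (volume (W m)) ^ (1 / c) ≤
      ∑ j, ENNReal.ofReal (ρ j ^ ((d : ℝ) / c - d)) *
        volume (T j ∩ (Set.Ico ((m : ℝ) * μ) (m * μ + μ) ×ˢ Set.univ)) := by
    intro m
    refine hslab (W m) (fun v i => a v (Fin.succ i) - a v 0 * v i) (m * μ) ρ T col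
      (fun v hv => hcubemem v hv.1) hρpos hTm ?_
    intro v hv t ht y hy
    have h1 : a v 0 / μ ≤ m := by rw [← hv.2]; exact Int.le_ceil _
    have h2 : (m : ℝ) < a v 0 / μ + 1 := by rw [← hv.2]; exact Int.ceil_lt_add_one _
    rw [div_le_iff₀ hμpos] at h1
    have h3 : (m : ℝ) * μ < a v 0 + μ := by
      have := mul_lt_mul_of_pos_right h2 hμpos
      rwa [add_mul, one_mul, div_mul_cancel₀ _ hμpos.ne'] at this
    have hlam' : lam = 2 * μ := by rw [hμ]; ring
    have ht' : t ∈ Set.Icc (a v 0) (a v 0 + lam) := ⟨by linarith [ht.1], by linarith [ht.2]⟩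
    have hmem := hcolmem v (hcubemem v hv.1) t ht'
    rw [hT, Set.mem_preimage, eqv_symm, Metric.mem_thickening_iff]
    refine ⟨pt v t, hmem, ?_⟩
    rw [EuclideanSpace.dist_eq, Fin.sum_univ_succ]
    have e0 : (pt v t) 0 = t := by
      simp only [hpt, PiLp.add_apply, PiLp.smul_apply, smul_eq_mul, hw0]
      ring
    have es : ∀ i : Fin d, (pt v t) (Fin.succ i) = (a v (Fin.succ i) - a v 0 * v i) + t * v i := by
      intro i
      simp only [hpt, PiLp.add_apply, PiLp.smul_apply, smul_eq_mul, hws]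
      ring
    rw [e0]
    simp only [es]
    set rj := r (col v t) with hrj
    have hrjpos : 0 < rj := hr _
    have hyρ : ∀ i, |y i - (a v (Fin.succ i) - a v 0 * v i + t * v i)| ≤ rj / (d + 1) := hy
    have hsum : ∑ i : Fin d, dist (y i) (a v (Fin.succ i) - a v 0 * v i + t * v i) ^ 2
        ≤ d * (rj / (d + 1)) ^ 2 := by
      calc _ ≤ ∑ _i : Fin d, (rj / (d + 1)) ^ 2 := by
            refine Finset.sum_le_sum fun i _ => ?_
            have := hyρ i
            rw [Real.dist_eq]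
            exact pow_le_pow_left₀ (abs_nonneg _) this 2
        _ = d * (rj / (d + 1)) ^ 2 := by
          rw [Finset.sum_const, Finset.card_univ, Fintype.card_fin, nsmul_eq_mul]
    have hlt : (d : ℝ) * (rj / (d + 1)) ^ 2 < rj ^ 2 := by
      rw [div_pow, ← mul_div_assoc, div_lt_iff₀ (by positivity)]
      have hdnn : (0 : ℝ) ≤ d := Nat.cast_nonneg d
      have hr2 : 0 < rj ^ 2 := by positivity
      nlinarith [mul_pos hr2 (by nlinarith : (0 : ℝ) < ((d : ℝ) + 1) ^ 2 - d)]
    calc _ ≤ √((d : ℝ) * (rj / (d + 1)) ^ 2) := by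
          apply Real.sqrt_le_sqrt
          simp only [Fin.cons_zero, Fin.cons_succ, dist_self]
          linarith
      _ < rj := by
          rw [Real.sqrt_lt' hrjpos]
          exact hlt
  -- sum over the slabs
  have hWvol : (1 : ℝ≥0∞) ≤ ∑' m : ℤ, (volume (W m)) ^ (1 / c) := by
    have h1 : cube ⊆ ⋃ m : ℤ, W m := by
      intro v hv
      exact Set.mem_iUnion.2 ⟨_, hv, rfl⟩
    calc (1 : ℝ≥0∞) = volume cube := hcubevol.symm
      _ ≤ volume (⋃ m : ℤ, W m) := measure_mono h1
      _ ≤ ∑' m : ℤ, volume (W m) := measure_iUnion_le _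
      _ ≤ ∑' m : ℤ, (volume (W m)) ^ (1 / c) := by
          refine ENNReal.tsum_le_tsum fun m => ?_
          have h2 : volume (W m) ≤ 1 := by
            rw [← hcubevol]; exact measure_mono fun v hv => hv.1
          calc volume (W m) = (volume (W m)) ^ (1 : ℝ) := (ENNReal.rpow_one _).symm
            _ ≤ (volume (W m)) ^ (1 / c) := by
                apply ENNReal.rpow_le_rpow_of_exponent_ge h2
                rw [div_le_one hc0]; exact hc
  have hdisj : Pairwise (Function.onFun Disjoint fun m : ℤ =>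
      (Set.Ico ((m : ℝ) * μ) (m * μ + μ) ×ˢ (Set.univ : Set (Fin d → ℝ)))) := by
    intro m m' hmm
    rw [Function.onFun, Set.disjoint_left]
    rintro ⟨t, y⟩ ⟨ht, _⟩ ⟨ht', _⟩
    apply hmm
    simp only at ht ht'
    have a1 : (m : ℝ) < m' + 1 := by
      by_contra hcon
      push Not at hcon
      have := mul_le_mul_of_nonneg_right hcon hμpos.le
      linarith [ht.1, ht'.2]
    have a2 : (m' : ℝ) < m + 1 := by
      by_contra hcon
      push Not at hcon
      have := mul_le_mul_of_nonneg_right hcon hμpos.le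
      linarith [ht'.1, ht.2]
    have b1 : m < m' + 1 := by exact_mod_cast a1
    have b2 : m' < m + 1 := by exact_mod_cast a2
    omega
  have hsumT : ∀ j, ∑' m : ℤ, volume (T j ∩ (Set.Ico ((m : ℝ) * μ) (m * μ + μ) ×ˢ Set.univ)) ≤
      volume (T j) := by
    intro j
    rw [← measure_iUnion]
    · exact measure_mono (Set.iUnion_subset fun m => Set.inter_subset_left)
    · intro m m' hmm
      exact (hdisj hmm).mono Set.inter_subset_right Set.inter_subset_right
    · intro m
      exact (hTm j).inter (measurableSet_Ico.prod MeasurableSet.univ)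
  have hmain : ENNReal.ofReal κ ≤ ∑ j, ENNReal.ofReal (ρ j ^ ((d : ℝ) / c - d)) * volume (T j) := by
    calc ENNReal.ofReal κ = ENNReal.ofReal κ * 1 := (mul_one _).symm
      _ ≤ ENNReal.ofReal κ * ∑' m : ℤ, (volume (W m)) ^ (1 / c) := by gcongr
      _ = ∑' m : ℤ, ENNReal.ofReal κ * (volume (W m)) ^ (1 / c) := ENNReal.tsum_mul_left.symm
      _ ≤ ∑' m : ℤ, ∑ j, ENNReal.ofReal (ρ j ^ ((d : ℝ) / c - d)) *
            volume (T j ∩ (Set.Ico ((m : ℝ) * μ) (m * μ + μ) ×ˢ Set.univ)) :=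
          ENNReal.tsum_le_tsum hone
      _ = ∑ j, ∑' m : ℤ, ENNReal.ofReal (ρ j ^ ((d : ℝ) / c - d)) *
            volume (T j ∩ (Set.Ico ((m : ℝ) * μ) (m * μ + μ) ×ˢ Set.univ)) :=
          Summable.tsum_finsetSum fun _ _ => ENNReal.summable
      _ ≤ _ := by
          refine Finset.sum_le_sum fun j _ => ?_
          rw [ENNReal.tsum_mul_left]
          gcongr
          exact hsumT j
  have hvolT : ∀ j, volume (T j) = volume (Metric.thickening (r j) (F j)) := fun j =>
    (eqv_mp d).symm.measure_preimage_equiv _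
  have hκ' : ENNReal.ofReal (κ * (1 / ((d : ℝ) + 1)) ^ ((d : ℝ) - d / c)) =
      ENNReal.ofReal ((1 / ((d : ℝ) + 1)) ^ ((d : ℝ) - d / c)) * ENNReal.ofReal κ := by
    rw [mul_comm, ENNReal.ofReal_mul (by positivity)]
  rw [hκ']
  calc ENNReal.ofReal ((1 / ((d : ℝ) + 1)) ^ ((d : ℝ) - d / c)) * ENNReal.ofReal κ
      ≤ ENNReal.ofReal ((1 / ((d : ℝ) + 1)) ^ ((d : ℝ) - d / c)) *
          ∑ j, ENNReal.ofReal (ρ j ^ ((d : ℝ) / c - d)) * volume (T j) := by gcongr
    _ = _ := by
        rw [Finset.mul_sum]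
        refine Finset.sum_congr rfl fun j _ => ?_
        rw [hvolT, ← mul_assoc, ← ENNReal.ofReal_mul (by positivity)]
        congr 2
        have hrj := hr j
        simp only [hρ]
        rw [Real.div_rpow hrj.le hd1.le, Real.div_rpow zero_le_one hd1.le, Real.one_rpow]
        have e : (d : ℝ) / c - d = -((d : ℝ) - d / c) := by ring
        rw [e, Real.rpow_neg hd1.le ((d : ℝ) - d / c)]
        field_simp

end Pool.Agent.X84.Kk
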